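import Mathlib

namespace Pool.Agent.Results.MP_5b0acc_co.Counter

open MeasureTheory Set

abbrev E := EuclideanSpace ℝ (Fin 3)

/-- image of a continuous injective map from a nondegenerate interval -/
def IsCurve (γ : Set E) : Prop := ∃ (I : Set ℝ) (f : ℝ → E),
  I.OrdConnected ∧ I.Nontrivial ∧ ContinuousOn f I ∧ InjOn f I ∧ γ = f '' I

/-- no four distinct points lie in a common plane -/
def Twisted (γ : Set E) : Prop := ∀ p : Fin 4 → E, Function.Injective p → (∀ i, p i ∈ γ) →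
  ¬ ∃ (n : E) (d : ℝ), n ≠ 0 ∧ ∀ i, inner ℝ n (p i) = d

def Vor (S : Set E) (x : E) : Set E := {y | ∀ z ∈ S, z ≠ x → dist y x < dist y z}

noncomputable def D (t : ℝ) : ℝ := 1 + t ^ 2 + t ^ 4

theorem Dpos (t : ℝ) : 0 < D t := by unfold D; positivity

noncomputable def P (t : ℝ) : E := !₂[t / D t, t ^ 2 / D t, 1 / D t]

theorem Pinj : Function.Injective P := by
  intro s t h
  have h0 := congrArg (fun p : E => p 0) h
  have h2 := congrArg (fun p : E => p 2) h
  simp [P] at h0 h2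
  rw [h2] at h0
  exact (div_left_inj' (Dpos t).ne').1 h0

theorem four {A B C F a b c d : ℝ} (ha : 0 < a) (hb : 0 < b) (hc : 0 < c) (hd : 0 < d)
    (ab : a ≠ b) (ac : a ≠ c) (ad : a ≠ d) (bc : b ≠ c) (bd : b ≠ d) (cd : c ≠ d)
    (h1 : A * a ^ 4 + B * a ^ 2 + C * a + F = 0) (h2 : A * b ^ 4 + B * b ^ 2 + C * b + F = 0)
    (h3 : A * c ^ 4 + B * c ^ 2 + C * c + F = 0) (h4 : A * d ^ 4 + B * d ^ 2 + C * d + F = 0) :
    A = 0 ∧ B = 0 ∧ C = 0 ∧ F = 0 := by
  have g : ∀ x, a ≠ x → A * x ^ 4 + B * x ^ 2 + C * x + F = 0 →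
      A * (a ^ 3 + a ^ 2 * x + a * x ^ 2 + x ^ 3) + B * (a + x) + C = 0 := fun x hx h =>
    mul_left_cancel₀ (sub_ne_zero.2 hx) (by linear_combination h1 - h)
  have g' : ∀ x, a ≠ x → b ≠ x → A * x ^ 4 + B * x ^ 2 + C * x + F = 0 →
      A * (a ^ 2 + b ^ 2 + x ^ 2 + a * b + a * x + b * x) + B = 0 := fun x hx hx' h =>
    mul_left_cancel₀ (sub_ne_zero.2 hx') (by linear_combination g b ab h2 - g x hx h)
  have hA : A * (a + b + c + d) = 0 :=
    mul_left_cancel₀ (sub_ne_zero.2 cd) (by linear_combination g' c ac bc h3 - g' d ad bd h4)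
  have hA := (mul_eq_zero.1 hA).resolve_right (by positivity)
  have hB := g' c ac bc h3
  have hC := g b ab h2
  subst hA
  have hB : B = 0 := by linarith
  subst hB
  have hC : C = 0 := by linarith
  subst hC
  exact ⟨rfl, rfl, rfl, by linarith⟩

theorem five {A B C F a b c d e : ℝ} (ha : 0 < a) (ab : a < b) (bc : b < c) (cd : c < d)
    (de : d < e) (h1 : A * a ^ 4 + B * a ^ 2 + C * a + F ≤ 0)
    (h2 : A * b ^ 4 + B * b ^ 2 + C * b + F = 0) (h3 : A * c ^ 4 + B * c ^ 2 + C * c + F ≤ 0)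
    (h4 : A * d ^ 4 + B * d ^ 2 + C * d + F = 0) (h5 : A * e ^ 4 + B * e ^ 2 + C * e + F ≤ 0) :
    A = 0 ∧ B = 0 ∧ C = 0 ∧ F = 0 := by
  have hC : A * (b ^ 3 + b ^ 2 * d + b * d ^ 2 + d ^ 3) + B * (b + d) + C = 0 :=
    mul_left_cancel₀ (sub_ne_zero.2 (bc.trans cd).ne) (by linear_combination h2 - h4)
  have key : ∀ x, A * x ^ 4 + B * x ^ 2 + C * x + F = (x - b) * (x - d) *
      (A * (x ^ 2 + (b + d) * x) + (A * (b ^ 2 + b * d + d ^ 2) + B)) := fun x => by
    linear_combination h2 + (x - b) * hC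
  generalize A * (b ^ 2 + b * d + d ^ 2) + B = K at key
  rw [key] at h1 h3 h5
  have q1 := nonpos_of_mul_nonpos_right h1 (mul_pos_of_neg_of_neg (by linarith) (by linarith))
  have q3 := nonneg_of_mul_nonpos_right h3 (mul_neg_of_pos_of_neg (by linarith) (by linarith))
  have q5 := nonpos_of_mul_nonpos_right h5 (mul_pos (by linarith) (by linarith))
  have m1 : a ^ 2 + (b + d) * a < c ^ 2 + (b + d) * c := by nlinarith
  have m2 : c ^ 2 + (b + d) * c < e ^ 2 + (b + d) * e := by nlinarith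
  have hA : A = 0 := by
    rcases lt_trichotomy A 0 with h | h | h
    · nlinarith
    · exact h
    · nlinarith
  have hK : K = 0 := by subst hA; linarith
  have z : ∀ x, A * x ^ 4 + B * x ^ 2 + C * x + F = 0 := fun x => by rw [key, hA, hK]; ring
  have z0 := z 0
  have z1 := z 1
  have z2 := z (-1)
  subst hA
  exact ⟨rfl, by linarith, by linarith, by linarith⟩

theorem dsq (y : E) (t : ℝ) : dist y (P t) ^ 2 = y 0 ^ 2 + y 1 ^ 2 + y 2 ^ 2 +
    (1 - 2 * y 0 * t - 2 * y 1 * t ^ 2 - 2 * y 2) / D t := by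
  have := (Dpos t).ne'
  rw [EuclideanSpace.dist_sq_eq]
  simp only [P, Fin.sum_univ_three, Real.dist_eq, sq_abs, Matrix.cons_val]
  field_simp
  unfold D
  ring

theorem cl {S : Set E} {x y z : E} (hy : y ∈ closure (Vor S x)) (hz : z ∈ S) :
    dist y x ^ 2 ≤ dist y z ^ 2 := by
  refine pow_le_pow_left₀ dist_nonneg ?_ 2
  refine closure_minimal (t := {y | dist y x ≤ dist y z}) (fun w hw => ?_)
    (isClosed_le (by fun_prop) (by fun_prop)) hy
  rcases eq_or_ne z x with rfl | h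
  · exact le_refl (dist w z)
  · exact (hw z hz h).le

theorem result : ∃ γ : Set E, IsCurve γ ∧ Twisted γ ∧ ∀ S ⊆ γ, S.Infinite →
    ∃ x ∈ S, ∃ x' ∈ S, x ≠ x' ∧ μH[2] (closure (Vor S x) ∩ closure (Vor S x')) = 0 := by
  refine ⟨P '' Ioi 0, ⟨Ioi 0, P, ordConnected_Ioi, ⟨1, by simp, 2, by simp, by norm_num⟩,
    Continuous.continuousOn ?_, Pinj.injOn, rfl⟩, ?_, ?_⟩
  · have hD : Continuous D := by unfold D; fun_prop
    refine (PiLp.continuous_toLp 2 _).comp (continuous_pi fun i => ?_)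
    fin_cases i <;> exact Continuous.div (by fun_prop) hD fun t => (Dpos t).ne'
  · rintro p hp hγ ⟨n, d, hn, h⟩
    choose t ht e using hγ
    have ne : ∀ i j, i ≠ j → t i ≠ t j := fun i j hij h => hij (hp (by rw [← e, ← e, h]))
    have eq : ∀ i, -d * t i ^ 4 + (n 1 - d) * t i ^ 2 + n 0 * t i + (n 2 - d) = 0 := fun i => by
      have h1 := h i
      have := (Dpos (t i)).ne'
      rw [← e, EuclideanSpace.inner_eq_star_dotProduct] at h1
      simp [P, dotProduct, Fin.sum_univ_three] at h1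
      field_simp at h1
      unfold D at h1
      linear_combination h1
    obtain ⟨a, b, c, f⟩ := four (ht 0) (ht 1) (ht 2) (ht 3) (ne _ _ (by decide)) (ne _ _ (by decide))
      (ne _ _ (by decide)) (ne _ _ (by decide)) (ne _ _ (by decide)) (ne _ _ (by decide))
      (eq 0) (eq 1) (eq 2) (eq 3)
    apply hn
    ext i
    fin_cases i <;> simp <;> linarith
  · intro S hS hinf
    have hT : {t | 0 < t ∧ P t ∈ S}.Infinite := by
      refine Infinite.of_image P (hinf.mono fun x hx => ?_)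
      obtain ⟨t, ht, rfl⟩ := hS hx
      exact ⟨t, ⟨ht, hx⟩, rfl⟩
    obtain ⟨T, hT, hc⟩ := hT.exists_subset_card_eq 5
    let t := T.orderEmbOfFin hc
    have ht : ∀ i, 0 < t i ∧ P (t i) ∈ S := fun i => hT (T.orderEmbOfFin_mem hc i)
    have lt : ∀ i j, i < j → t i < t j := fun i j h => t.strictMono h
    refine ⟨_, (ht 1).2, _, (ht 3).2, fun h => (lt 1 3 (by decide)).ne (Pinj h), ?_⟩
    have := Measure.nullSingletonClass_hausdorff E (show (0 : ℝ) < 2 by norm_num)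
    refine measure_mono_null (t := {!₂[0, 0, 1 / 2]}) ?_ (measure_singleton _)
    rintro y ⟨h1, h3⟩
    obtain ⟨m, hm⟩ : ∃ m, m = dist y (P (t 1)) ^ 2 - (y 0 ^ 2 + y 1 ^ 2 + y 2 ^ 2) := ⟨_, rfl⟩
    have le : ∀ i, m * t i ^ 4 + (m + 2 * y 1) * t i ^ 2 + 2 * y 0 * t i + (m + 2 * y 2 - 1) ≤ 0 := by
      intro i
      have := cl h1 (ht i).2
      rw [dsq y (t i), ← sub_le_iff_le_add', ← hm, le_div_iff₀ (Dpos _)] at this
      unfold D at this
      linarith
    have eq : ∀ i, dist y (P (t i)) ^ 2 = dist y (P (t 1)) ^ 2 →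
        m * t i ^ 4 + (m + 2 * y 1) * t i ^ 2 + 2 * y 0 * t i + (m + 2 * y 2 - 1) = 0 := by
      intro i this
      rw [dsq y (t i), ← eq_sub_iff_add_eq', ← hm, div_eq_iff (Dpos _).ne'] at this
      unfold D at this
      linarith
    obtain ⟨a, b, c, f⟩ := five (ht 0).1 (lt 0 1 (by decide)) (lt 1 2 (by decide))
      (lt 2 3 (by decide)) (lt 3 4 (by decide)) (le 0) (eq 1 rfl) (le 2)
      (eq 3 (le_antisymm (cl h3 (ht 1).2) (cl h1 (ht 3).2))) (le 4)
    ext i
    fin_cases i <;> simp <;> linarith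

end Pool.Agent.Results.MP_5b0acc_co.Counter
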